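import Pool.Agent.Helper72.EP.Spec1

/-!
MP_45fa85_co, module RK2: the closure operator of the rank function.
-/

namespace ErdPos

open Finset

section
variable {V : Type} [Fintype V] [DecidableEq V] {G : SimpleGraph V} {F : Finset V → Prop}

/-- submodularity of the boundary -/
theorem rk2_uncross {W A B E : Finset V} (hE : IsComp G (A ∩ B) E) :
    (Nb G W (A ∪ B)).card + (Nb G W E).card ≤ (Nb G W A).card + (Nb G W B).card := by
  have hEAB : E ⊆ A ∩ B := hE.subset
  have h1 : Nb G W (A ∪ B) ∪ Nb G W E ⊆ Nb G W A ∪ Nb G W B := by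
    intro v hv
    rw [mem_union, mem_Nb, mem_Nb] at hv
    rw [mem_union, mem_Nb, mem_Nb]
    rcases hv with ⟨hW, hn, y, hy, hvy⟩ | ⟨hW, hn, y, hy, hvy⟩
    · rw [mem_union, not_or] at hn
      rcases mem_union.1 hy with hy | hy
      · exact Or.inl ⟨hW, hn.1, y, hy, hvy⟩
      · exact Or.inr ⟨hW, hn.2, y, hy, hvy⟩
    · have hy' := mem_inter.1 (hEAB hy)
      by_cases hA : v ∈ A
      · by_cases hB : v ∈ B
        · exact absurd (hE.mem_of_adj hy (mem_inter.2 ⟨hA, hB⟩) hvy.symm) hn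
        · exact Or.inr ⟨hW, hB, y, hy'.2, hvy⟩
      · exact Or.inl ⟨hW, hA, y, hy'.1, hvy⟩
  have h2 : Nb G W (A ∪ B) ∩ Nb G W E ⊆ Nb G W A ∩ Nb G W B := by
    intro v hv
    rw [mem_inter, mem_Nb, mem_Nb] at hv
    rw [mem_inter, mem_Nb, mem_Nb]
    obtain ⟨⟨hW, hn, _⟩, _, _, y, hy, hvy⟩ := hv
    rw [mem_union, not_or] at hn
    have hy' := mem_inter.1 (hEAB hy)
    exact ⟨⟨hW, hn.1, y, hy'.1, hvy⟩, hW, hn.2, y, hy'.2, hvy⟩
  have h3 := card_le_card h1
  have h4 := card_le_card h2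
  have h5 := card_union_add_card_inter (Nb G W (A ∪ B)) (Nb G W E)
  have h6 := card_union_add_card_inter (Nb G W A) (Nb G W B)
  omega

/-- two big sets with small boundaries contain a common big set -/
theorem rk2_meet {W A B : Finset V} {q : ℕ} (hW : Hav G F W (2 * q)) (hA : Big G F W A)
    (hB : Big G F W B) (h : (Nb G W A).card + (Nb G W B).card ≤ 2 * q) :
    ∃ D, Conn G D ∧ Has F D ∧ D ⊆ A ∩ B := by
  have hc : (Nb G W A ∪ Nb G W B).card ≤ 2 * q := (card_union_le _ _).trans h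
  have hb := hW.isBt hc
  have hA' := hA.isBt hW (by omega)
  have hB' := hB.isBt hW (by omega)
  refine ⟨_, hb.2.1, hb.2.2.1, subset_inter ?_ ?_⟩
  · exact hA'.2.2.2 _ (hb.1.trans (sdiff_subset_sdiff subset_rfl subset_union_left)) hb.2.1
      hb.2.2.1
  · exact hB'.2.2.2 _ (hb.1.trans (sdiff_subset_sdiff subset_rfl subset_union_right)) hb.2.1
      hb.2.2.1

theorem rk2_core (h1 : ST_RK1) {W : Finset V} {q : ℕ} (hW : Hav G F W (2 * q)) {X : Finset V}
    (hXW : X ⊆ W) (hq : rk G F W q X < q) :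
    X ⊆ cl G F W q X ∧ rk G F W q (cl G F W q X) = rk G F W q X ∧
    Big G F W (W \ cl G F W q X) ∧ (Nb G W (W \ cl G F W q X)).card = rk G F W q X ∧
    (∀ D, Big G F W D → Disjoint D X → (Nb G W D).card = rk G F W q X →
      W \ cl G F W q X ⊆ D) := by
  classical
  obtain ⟨-, -, hmono, -, -, hlow, hatt⟩ := h1 V G F W q hW
  -- a smallest big set
  let P : Finset (Finset V) := univ.filter (fun D => Big G F W D ∧ Disjoint D X ∧
    (Nb G W D).card = rk G F W q X)
  have hP : P.Nonempty := by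
    obtain ⟨C, hC⟩ := hatt X hq
    exact ⟨C, mem_filter.2 ⟨mem_univ _, hC⟩⟩
  obtain ⟨C0, hC0, hmin⟩ := exists_min_image P card hP
  obtain ⟨-, hbig, hdis, hcard⟩ := mem_filter.1 hC0
  have hin : ∀ D, Big G F W D → Disjoint D X → (Nb G W D).card = rk G F W q X → C0 ⊆ D := by
    intro D hD hDX hDc
    obtain ⟨B, hBc, hBh, hBs⟩ := rk2_meet hW hbig hD (by omega)
    obtain ⟨b, hb⟩ := hBc.1
    obtain ⟨E, hE, hbE⟩ := exists_comp (G := G) (hBs hb)
    have hBE : B ⊆ E := hE.subset_of_mem hBc hBs hb hbE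
    have hEbig : Big G F W E := ⟨(hE.subset.trans inter_subset_left).trans hbig.1, hE.conn,
      hBh.mono hBE⟩
    have hUbig : Big G F W (C0 ∪ D) := ⟨union_subset hbig.1 hD.1,
      hbig.2.1.union_of_mem hD.2.1 (mem_inter.1 (hBs hb)).1 (mem_inter.1 (hBs hb)).2,
      hbig.2.2.mono subset_union_left⟩
    have hEX : Disjoint E X := hdis.mono_left (hE.subset.trans inter_subset_left)
    have hUX : Disjoint (C0 ∪ D) X := by
      rw [disjoint_union_left]
      exact ⟨hdis, hDX⟩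
    have e1 := rk2_uncross (W := W) hE
    have e2 := hlow X E hEbig hEX
    have e3 := hlow X (C0 ∪ D) hUbig hUX
    have e4 := hmin E (mem_filter.2 ⟨mem_univ _, hEbig, hEX, by omega⟩)
    have e5 : E = C0 := eq_of_subset_of_card_le (hE.subset.trans inter_subset_left) e4
    rw [← e5]
    exact hE.subset.trans inter_subset_right
  have hcl : W \ cl G F W q X = C0 := by
    ext v
    rw [mem_sdiff, cl, mem_filter]
    constructor
    · rintro ⟨hv, hn⟩
      by_contra hvC
      apply hn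
      refine ⟨hv, le_antisymm ?_ (hmono _ _ (subset_insert _ _))⟩
      rw [← hcard]
      refine hlow _ _ hbig ?_
      rw [disjoint_insert_right]
      exact ⟨hvC, hdis⟩
    · intro hv
      refine ⟨hbig.1 hv, ?_⟩
      rintro ⟨_, he⟩
      obtain ⟨D, hD, hDd, hDc⟩ := hatt (insert v X) (by rw [he]; exact hq)
      rw [disjoint_insert_right] at hDd
      exact hDd.1 (hin D hD hDd.2 (by rw [hDc, he]) hv)
  have hXcl : X ⊆ cl G F W q X := by
    intro v hv
    rw [cl, mem_filter]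
    exact ⟨hXW hv, by rw [insert_eq_of_mem hv]⟩
  refine ⟨hXcl, ?_, ?_, ?_, ?_⟩
  · refine le_antisymm ?_ (hmono _ _ hXcl)
    rw [← hcard]
    refine hlow _ _ hbig ?_
    rw [← hcl]
    exact sdiff_disjoint
  · rw [hcl]
    exact hbig
  · rw [hcl]
    exact hcard
  · rw [hcl]
    exact hin

theorem st_RK2 (h1 : ST_RK1) : ST_RK2 := by
  intro V _ _ G F W q hW X hXW hq
  obtain ⟨hrq, hrc, hmono, hins, hsub, hlow, hatt⟩ := h1 V G F W q hW
  obtain ⟨c1, c2, c3, c4, c5⟩ := rk2_core h1 hW hXW hq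
  have hclW : ∀ Y, cl G F W q Y ⊆ W := fun Y => filter_subset _ _
  have hmcl : ∀ Y v, v ∈ cl G F W q Y ↔ v ∈ W ∧ rk G F W q (insert v Y) = rk G F W q Y := by
    intro Y v
    rw [cl, mem_filter]
  have c9 : ∀ Y Z, Y ⊆ W → rk G F W q Y < q → Z ⊆ cl G F W q Y →
      cl G F W q Z ⊆ cl G F W q Y := by
    intro Y Z hY hYq hZ v hv
    by_cases hvK : v ∈ cl G F W q Y
    · exact hvK
    obtain ⟨d1, d2, -, -, -⟩ := rk2_core h1 hW hY hYq
    rw [hmcl] at hv
    rw [hmcl]
    refine ⟨hv.1, le_antisymm ?_ (hmono _ _ (subset_insert _ _))⟩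
    have e1 := hsub (insert v Z) (cl G F W q Y)
    have e2 : insert v Z ∩ cl G F W q Y = Z := by
      rw [insert_inter_of_notMem hvK]
      exact inter_eq_left.2 hZ
    rw [e2, hv.2, d2] at e1
    have e3 : rk G F W q (insert v Y) ≤ rk G F W q (insert v Z ∪ cl G F W q Y) :=
      hmono _ _ (insert_subset (mem_union_left _ (mem_insert_self _ _))
        (d1.trans subset_union_right))
    omega
  have hZcl : Nb G W (W \ cl G F W q X) ⊆ cl G F W q X := by
    intro v hv
    rw [mem_Nb] at hv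
    by_contra hn
    exact hv.2.1 (mem_sdiff.2 ⟨hv.1, hn⟩)
  refine ⟨c1, c2, ?_, c3, c4, hZcl, ?_, c5, ?_, ?_, ?_⟩
  · refine subset_antisymm ?_ (rk2_core h1 hW (hclW X) (by rw [c2]; exact hq)).1
    exact c9 X (cl G F W q X) hXW hq subset_rfl
  · refine le_antisymm ((hrc _).trans c4.le) ?_
    by_contra hlt
    push Not at hlt
    obtain ⟨D, hD, hDd, hDc⟩ := hatt (Nb G W (W \ cl G F W q X)) (hlt.trans hq)
    obtain ⟨B, hBc, hBh, hBs⟩ := rk2_meet hW c3 hD (by omega)
    obtain ⟨b, hb⟩ := hBc.1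
    have hbt := c3.isBt hW (by omega)
    have hDC : D ⊆ W \ cl G F W q X := by
      refine hbt.subset_of_mem hD.2.1 ?_ (mem_inter.1 (hBs hb)).2 (mem_inter.1 (hBs hb)).1
      intro v hv
      exact mem_sdiff.2 ⟨hD.1 hv, Finset.disjoint_left.1 hDd hv⟩
    have hDX : Disjoint D X := by
      refine Disjoint.mono hDC c1 ?_
      exact sdiff_disjoint
    have := hlow X D hD hDX
    omega
  · intro Y hY hYq hXY
    exact c9 Y X hY hYq hXY
  · intro Y hY hXY hr
    have e1 : Y ⊆ cl G F W q X := by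
      intro v hv
      rw [hmcl]
      refine ⟨hY hv, le_antisymm ?_ (hmono _ _ (subset_insert _ _))⟩
      rw [← hr]
      exact hmono _ _ (insert_subset hv hXY)
    have hYq : rk G F W q Y < q := by rw [hr]; exact hq
    refine ⟨e1, subset_antisymm (c9 X Y hXW hq e1) (c9 Y X hY hYq ?_)⟩
    exact hXY.trans (rk2_core h1 hW hY hYq).1
  · intro Y
    have e1 := hsub (cl G F W q X) (X ∪ Y)
    have e2 : rk G F W q X ≤ rk G F W q (cl G F W q X ∩ (X ∪ Y)) :=
      hmono _ _ (subset_inter c1 subset_union_left)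
    have e3 : rk G F W q (cl G F W q X ∪ Y) ≤ rk G F W q (cl G F W q X ∪ (X ∪ Y)) :=
      hmono _ _ (union_subset_union subset_rfl subset_union_right)
    have e4 : rk G F W q (X ∪ Y) ≤ rk G F W q (cl G F W q X ∪ Y) :=
      hmono _ _ (union_subset_union c1 subset_rfl)
    omega

end

end ErdPos
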